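import Mathlib

set_option autoImplicit false

/-!
# Sampling of finite dimensional subspaces of `C(K)`

Every finite dimensional subspace `M` of `C(K, ℂ)`, `K` a compact metric space, is reproduced by
`G ∘ τ` where `τ` samples at finitely many points and `‖G‖ ≤ 2`.
-/

open Metric Filter Topology

namespace Pool.Agent.H59.Ball

variable {K : Type*} [MetricSpace K] [CompactSpace K]

/-- Equicontinuity of the unit ball of a finite dimensional subspace. -/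
lemma exists_modulus (M : Submodule ℂ C(K, ℂ)) [FiniteDimensional ℂ M] {ε : ℝ} (hε : 0 < ε) :
    ∃ δ > 0, ∀ f ∈ M, ∀ w w' : K, dist w w' < δ → ‖f w - f w'‖ ≤ ε * ‖f‖ := by
  have : ProperSpace M := FiniteDimensional.proper ℂ M
  have hcomp : IsCompact (closedBall (0 : M) 1) := isCompact_closedBall _ _
  obtain ⟨t, -, htf, hcov⟩ := hcomp.finite_cover_balls (e := ε / 4) (by positivity)
  have huc : ∀ y : M, ∃ δ > 0, ∀ w w' : K, dist w w' < δ →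
      ‖(y : C(K, ℂ)) w - (y : C(K, ℂ)) w'‖ < ε / 4 := by
    intro y
    have h1 : UniformContinuous (y : C(K, ℂ)) :=
      CompactSpace.uniformContinuous_of_continuous (y : C(K, ℂ)).continuous
    obtain ⟨δ, hδ, h2⟩ := Metric.uniformContinuous_iff.1 h1 (ε / 4) (by positivity)
    exact ⟨δ, hδ, fun w w' hw => by simpa [dist_eq_norm] using h2 hw⟩
  choose d hd0 hd using huc
  have hmin : ∃ δ > 0, ∀ y ∈ t, δ ≤ d y := by
    rcases t.eq_empty_or_nonempty with h | h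
    · exact ⟨1, one_pos, by simp [h]⟩
    · obtain ⟨a, ha, hmin⟩ := Set.exists_min_image t d htf h
      exact ⟨d a, hd0 a, hmin⟩
  obtain ⟨δ, hδ, hδt⟩ := hmin
  refine ⟨δ, hδ, fun f hf w w' hw => ?_⟩
  rcases eq_or_ne f 0 with rfl | hf0
  · simp
  have hfn : 0 < ‖f‖ := norm_pos_iff.2 hf0
  -- normalise
  set u : M := ((‖f‖ : ℂ)⁻¹) • ⟨f, hf⟩ with hu
  have hun : ‖u‖ ≤ 1 := by
    rw [hu, norm_smul, norm_inv, Complex.norm_real, Real.norm_of_nonneg hfn.le]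
    have h0 : ‖(⟨f, hf⟩ : M)‖ = ‖f‖ := rfl
    rw [h0, inv_mul_cancel₀ hfn.ne']
  have hmem : u ∈ closedBall (0 : M) 1 := mem_closedBall_zero_iff.2 hun
  obtain ⟨y, hy⟩ := Set.mem_iUnion.1 (hcov hmem)
  obtain ⟨hyt, hy⟩ := Set.mem_iUnion.1 hy
  have hdist : ‖(u : C(K, ℂ)) - (y : C(K, ℂ))‖ < ε / 4 := by
    have h0 : ‖u - y‖ < ε / 4 := by rw [← dist_eq_norm]; exact hy
    exact h0
  have hpt : ∀ z : K, ‖(u : C(K, ℂ)) z - (y : C(K, ℂ)) z‖ ≤ ε / 4 := fun z =>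
    ((((u : C(K, ℂ)) - (y : C(K, ℂ))).norm_coe_le_norm z).trans hdist.le)
  have h3 : ‖(u : C(K, ℂ)) w - (u : C(K, ℂ)) w'‖ ≤ ε := by
    have e : (u : C(K, ℂ)) w - (u : C(K, ℂ)) w' = ((u : C(K, ℂ)) w - (y : C(K, ℂ)) w) +
        ((y : C(K, ℂ)) w - (y : C(K, ℂ)) w') - ((u : C(K, ℂ)) w' - (y : C(K, ℂ)) w') := by ring
    rw [e]
    have h4 := hd y w w' (hw.trans_le (hδt y hyt))
    calc _ ≤ ‖((u : C(K, ℂ)) w - (y : C(K, ℂ)) w) +
        ((y : C(K, ℂ)) w - (y : C(K, ℂ)) w')‖ + ‖(u : C(K, ℂ)) w' - (y : C(K, ℂ)) w'‖ :=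
          norm_sub_le _ _
      _ ≤ (‖(u : C(K, ℂ)) w - (y : C(K, ℂ)) w‖ + ‖(y : C(K, ℂ)) w - (y : C(K, ℂ)) w'‖) +
          ‖(u : C(K, ℂ)) w' - (y : C(K, ℂ)) w'‖ := by gcongr; exact norm_add_le _ _
      _ ≤ (ε / 4 + ε / 4) + ε / 4 := by gcongr <;> exact hpt _
      _ ≤ ε := by linarith
  have h5 : (u : C(K, ℂ)) w - (u : C(K, ℂ)) w' = (‖f‖ : ℂ)⁻¹ * (f w - f w') := by
    have h6 : (u : C(K, ℂ)) = (‖f‖ : ℂ)⁻¹ • f := rfl
    rw [h6, ContinuousMap.smul_apply, ContinuousMap.smul_apply, smul_eq_mul, smul_eq_mul, mul_sub]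
  rw [h5, norm_mul, norm_inv, Complex.norm_real, Real.norm_of_nonneg hfn.le,
    inv_mul_le_iff₀ hfn] at h3
  linarith [mul_comm ‖f‖ ε]

/-- Partition of unity subordinate to a finite cover by balls of radius `δ`, indexed by `Fin m`. -/
lemma exists_partition [Nonempty K] {δ : ℝ} (hδ : 0 < δ) :
    ∃ (m : ℕ) (w : Fin m → K) (g : Fin m → C(K, ℝ)), 0 < m ∧ (∀ i z, 0 ≤ g i z) ∧
      (∀ z, ∑ i, g i z = 1) ∧ ∀ i z, g i z ≠ 0 → dist z (w i) < δ := by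
  obtain ⟨t, -, htf, hcov⟩ := (isCompact_univ : IsCompact (Set.univ : Set K)).finite_cover_balls
    (e := δ / 2) (by positivity)
  set s : Finset K := htf.toFinset with hs
  set w : Fin s.card → K := fun i => (s.equivFin.symm i : K) with hw
  have hwcov : ∀ z : K, ∃ i, dist z (w i) < δ / 2 := by
    intro z
    obtain ⟨y, hy⟩ := Set.mem_iUnion.1 (hcov (Set.mem_univ z))
    obtain ⟨hyt, hy⟩ := Set.mem_iUnion.1 hy
    have hys : y ∈ s := by rw [hs]; exact htf.mem_toFinset.2 hyt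
    refine ⟨s.equivFin ⟨y, hys⟩, ?_⟩
    simpa [hw] using hy
  have hm : 0 < s.card := by
    obtain ⟨z⟩ := ‹Nonempty K›
    obtain ⟨i, -⟩ := hwcov z
    exact i.pos
  set φ : Fin s.card → K → ℝ := fun i z => max 0 (δ - dist z (w i)) with hφ
  have hφ0 : ∀ i z, 0 ≤ φ i z := fun i z => le_max_left _ _
  have hφc : ∀ i, Continuous (φ i) := fun i => by
    simp only [hφ]; fun_prop
  have hsum : ∀ z, 0 < ∑ i, φ i z := by
    intro z
    obtain ⟨i, hi⟩ := hwcov z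
    refine Finset.sum_pos' (fun j _ => hφ0 j z) ⟨i, Finset.mem_univ i, ?_⟩
    simp only [hφ]
    exact lt_max_of_lt_right (by linarith)
  have hsc : Continuous fun z => ∑ i, φ i z := continuous_finsetSum _ fun i _ => hφc i
  refine ⟨s.card, w, fun i => ⟨fun z => φ i z / ∑ l, φ l z,
    (hφc i).div hsc fun z => (hsum z).ne'⟩, hm, ?_, ?_, ?_⟩
  · intro i z
    exact div_nonneg (hφ0 i z) (hsum z).le
  · intro z
    simp only [ContinuousMap.coe_mk]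
    rw [← Finset.sum_div, div_self (hsum z).ne']
  · intro i z h
    simp only [ContinuousMap.coe_mk, ne_eq, div_eq_zero_iff, not_or] at h
    by_contra hcon
    apply h.1
    simp only [hφ]
    exact max_eq_left (by linarith [not_lt.1 hcon])

theorem exists_sampling [Nonempty K]
    (M : Submodule ℂ C(K, ℂ)) [FiniteDimensional ℂ M] :
    ∃ (m : ℕ) (τ : C(K, ℂ) →L[ℂ] (Fin m → ℂ)) (G : (Fin m → ℂ) →L[ℂ] C(K, ℂ)),
      0 < m ∧ ‖τ‖ ≤ 1 ∧ ‖G‖ ≤ 2 ∧ ∀ f ∈ M, G (τ f) = f := by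
  obtain ⟨P, hP⟩ : ∃ P : C(K, ℂ) →L[ℂ] M, ∀ x : M, P x = x :=
    Submodule.ClosedComplemented.of_finiteDimensional M
  set d : ℝ := ‖P‖ + 1 with hd
  have hd0 : 0 < d := by positivity
  obtain ⟨δ, hδ, hmod⟩ := exists_modulus M (ε := 1 / (4 * d)) (by positivity)
  obtain ⟨m, w, g, hm, hg0, hg1, hgs⟩ := exists_partition (K := K) hδ
  -- sampling map
  set τ : C(K, ℂ) →L[ℂ] (Fin m → ℂ) :=
    ContinuousLinearMap.pi fun i => ContinuousMap.evalCLM ℂ (w i) with hτ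
  have hτapp : ∀ f i, τ f i = f (w i) := fun f i => rfl
  have hτn : ‖τ‖ ≤ 1 := by
    refine ContinuousLinearMap.opNorm_le_bound _ zero_le_one fun f => ?_
    rw [one_mul, pi_norm_le_iff_of_nonneg (norm_nonneg _)]
    intro i
    exact f.norm_coe_le_norm (w i)
  -- the functions g as complex functions
  set gc : Fin m → C(K, ℂ) := fun i => ⟨fun z => (g i z : ℂ),
    Complex.continuous_ofReal.comp (g i).continuous⟩ with hgc
  set G₀ : (Fin m → ℂ) →L[ℂ] C(K, ℂ) :=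
    ∑ i, (ContinuousLinearMap.proj (R := ℂ) (φ := fun _ : Fin m => ℂ) i).smulRight (gc i) with hG₀
  have hG₀app : ∀ x z, G₀ x z = ∑ i, x i * (g i z : ℂ) := by
    intro x z
    simp [hG₀, hgc]
  have hG₀n : ∀ x, ‖G₀ x‖ ≤ ‖x‖ := by
    intro x
    rw [ContinuousMap.norm_le _ (norm_nonneg _)]
    intro z
    rw [hG₀app]
    calc ‖∑ i, x i * (g i z : ℂ)‖ ≤ ∑ i, ‖x i * (g i z : ℂ)‖ := norm_sum_le _ _
      _ = ∑ i, ‖x i‖ * g i z := by
          refine Finset.sum_congr rfl fun i _ => ?_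
          rw [norm_mul, Complex.norm_real, Real.norm_of_nonneg (hg0 i z)]
      _ ≤ ∑ i, ‖x‖ * g i z := by
          refine Finset.sum_le_sum fun i _ => ?_
          exact mul_le_mul_of_nonneg_right (norm_le_pi_norm x i) (hg0 i z)
      _ = ‖x‖ := by rw [← Finset.mul_sum, hg1, mul_one]
  set T : C(K, ℂ) →L[ℂ] C(K, ℂ) := G₀.comp τ with hT
  have hTM : ∀ f ∈ M, ‖f - T f‖ ≤ 1 / (4 * d) * ‖f‖ := by
    intro f hf
    rw [ContinuousMap.norm_le _ (by positivity)]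
    intro z
    have e : (f - T f) z = ∑ i, (f z - f (w i)) * (g i z : ℂ) := by
      rw [ContinuousMap.sub_apply, hT, ContinuousLinearMap.comp_apply, hG₀app]
      simp only [hτapp, sub_mul, Finset.sum_sub_distrib]
      rw [← Finset.mul_sum, ← Complex.ofReal_sum, hg1, Complex.ofReal_one, mul_one]
    rw [e]
    calc ‖∑ i, (f z - f (w i)) * (g i z : ℂ)‖ ≤ ∑ i, ‖(f z - f (w i)) * (g i z : ℂ)‖ :=
          norm_sum_le _ _
      _ ≤ ∑ i, 1 / (4 * d) * ‖f‖ * g i z := by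
          refine Finset.sum_le_sum fun i _ => ?_
          rw [norm_mul, Complex.norm_real, Real.norm_of_nonneg (hg0 i z)]
          rcases eq_or_ne (g i z) 0 with h | h
          · rw [h]; simp
          · exact mul_le_mul_of_nonneg_right (hmod f hf z (w i) (hgs i z h)) (hg0 i z)
      _ = 1 / (4 * d) * ‖f‖ := by rw [← Finset.mul_sum, hg1, mul_one]
  -- the perturbation
  set Q : C(K, ℂ) →L[ℂ] C(K, ℂ) :=
    ((ContinuousLinearMap.id ℂ C(K, ℂ)) - T).comp (M.subtypeL.comp P) with hQ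
  have hQapp : ∀ x, Q x = (P x : C(K, ℂ)) - T (P x : C(K, ℂ)) := fun x => rfl
  have hQn : ‖Q‖ ≤ 1 / 4 := by
    refine ContinuousLinearMap.opNorm_le_bound _ (by norm_num) fun x => ?_
    rw [hQapp]
    calc _ ≤ 1 / (4 * d) * ‖(P x : C(K, ℂ))‖ := hTM _ (P x).2
      _ ≤ 1 / (4 * d) * (d * ‖x‖) := by
          gcongr
          calc ‖(P x : C(K, ℂ))‖ = ‖P x‖ := rfl
            _ ≤ ‖P‖ * ‖x‖ := P.le_opNorm x
            _ ≤ d * ‖x‖ := by gcongr; linarith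
      _ = 1 / 4 * ‖x‖ := by field_simp
  set U : (C(K, ℂ) →L[ℂ] C(K, ℂ))ˣ := Units.oneSub Q (hQn.trans_lt (by norm_num)) with hU
  have hUapp : ∀ x, (U : C(K, ℂ) →L[ℂ] C(K, ℂ)) x = x - Q x := fun x => rfl
  have hUinv : ∀ x, (U : C(K, ℂ) →L[ℂ] C(K, ℂ)) ((↑U⁻¹ : C(K, ℂ) →L[ℂ] C(K, ℂ)) x) = x := by
    intro x
    have h : (U : C(K, ℂ) →L[ℂ] C(K, ℂ)) * (↑U⁻¹ : C(K, ℂ) →L[ℂ] C(K, ℂ)) = 1 := U.mul_inv
    exact DFunLike.congr_fun h x
  have hinvU : ∀ x, (↑U⁻¹ : C(K, ℂ) →L[ℂ] C(K, ℂ)) ((U : C(K, ℂ) →L[ℂ] C(K, ℂ)) x) = x := by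
    intro x
    have h : (↑U⁻¹ : C(K, ℂ) →L[ℂ] C(K, ℂ)) * (U : C(K, ℂ) →L[ℂ] C(K, ℂ)) = 1 := U.inv_mul
    exact DFunLike.congr_fun h x
  refine ⟨m, τ, (↑U⁻¹ : C(K, ℂ) →L[ℂ] C(K, ℂ)).comp G₀, hm, hτn, ?_, ?_⟩
  · refine ContinuousLinearMap.opNorm_le_bound _ (by norm_num) fun x => ?_
    rw [ContinuousLinearMap.comp_apply]
    set y := (↑U⁻¹ : C(K, ℂ) →L[ℂ] C(K, ℂ)) (G₀ x) with hy
    have h1 : y - Q y = G₀ x := by rw [← hUapp, hy, hUinv]
    have h2 : ‖y‖ ≤ ‖G₀ x‖ + ‖Q y‖ := by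
      calc ‖y‖ = ‖(y - Q y) + Q y‖ := by rw [sub_add_cancel]
        _ ≤ ‖y - Q y‖ + ‖Q y‖ := norm_add_le _ _
        _ = _ := by rw [h1]
    have h3 : ‖Q y‖ ≤ 1 / 4 * ‖y‖ := (Q.le_opNorm y).trans (by gcongr)
    have h4 := hG₀n x
    linarith [norm_nonneg y]
  · intro f hf
    rw [ContinuousLinearMap.comp_apply]
    have h1 : (U : C(K, ℂ) →L[ℂ] C(K, ℂ)) f = G₀ (τ f) := by
      rw [hUapp, hQapp]
      have h2 : (P f : C(K, ℂ)) = f := by
        have := hP ⟨f, hf⟩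
        exact congrArg Subtype.val this
      rw [h2, sub_sub_cancel]
      rfl
    rw [← h1, hinvU]

end Pool.Agent.H59.Ball
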